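import Pool.Agent.TH910.Voj.Norm
import Pool.Agent.TH910.Voj.Ram
import Pool.Agent.TH910.Voj.Model
import Pool.Agent.N753.AC.Stm

set_option autoImplicit false

/-!
A normal finite algebra at a prime divisor of the base, outside the zeros of a finite set of
functions (part LOC of project AC, helper753; adapted from Pool/Agent/TH910/Voj/Local.lean by
helper61)
-/

namespace Pool.Agent.N61.AC

open IsLocalRing Pool.Agent.TH910.Voj Pool.Agent.N753.AC

theorem local_data {R A : Type} [CommRing R] [IsDomain R] [IsNoetherianRing R] [CommRing A]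
    [IsDomain A] [IsIntegrallyClosed A] [Algebra R A] [Module.Finite R A] [FaithfulSMul R A]
    (F : R) (Y : Finset A) (hF : Prime F) (s N : ℕ) (hN : Module.finrank R A = N)
    (hs : SheetsLE A F Y s) :
    ∃ (ω : Fin N → A) (z : A) (g : R) (M : Matrix (Fin N) (Fin N) R) (E : ℕ) (b : A → A),
      ¬ F ∣ g ∧ (∀ i, algebraMap R A g * z * ω i = ∑ j, algebraMap R A (M i j) * ω j) ∧
      ¬ F ^ (s + 1) ∣ M.det ∧
      (∀ a, ∃ r : Fin N → R, algebraMap R A g * a = ∑ i, algebraMap R A (r i) * ω i) ∧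
      ∀ y ∈ Y, algebraMap R A g * (y * z) ^ E = algebraMap R A F * b y := by
  classical
  have hP : (Ideal.span {F}).IsPrime := (Ideal.span_singleton_prime hF.ne_zero).mpr hF
  set p : Ideal R := Ideal.span {F} with hp
  have hmemp : ∀ r : R, r ∈ p.primeCompl ↔ ¬ F ∣ r := fun r => by
    rw [Ideal.mem_primeCompl_iff, hp, Ideal.mem_span_singleton]
  let Rₚ := Localization.AtPrime p
  let Sₚ := Localization (Algebra.algebraMapSubmonoid A p.primeCompl)
  let _ : Algebra Rₚ Sₚ := localizationAlgebra p.primeCompl A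
  have : IsScalarTower R Rₚ Sₚ := IsScalarTower.of_algebraMap_eq'
    (by rw [RingHom.algebraMap_toAlgebra, IsLocalization.map_comp, ← IsScalarTower.algebraMap_eq])
  have : IsLocalization (Submonoid.map (algebraMap R A) (Ideal.primeCompl p)) Sₚ :=
    inferInstanceAs (IsLocalization (Algebra.algebraMapSubmonoid A p.primeCompl) Sₚ)
  have e0 : Algebra.algebraMapSubmonoid A p.primeCompl ≤ nonZeroDivisors A :=
    Submonoid.map_le_of_le_comap _ <| p.primeCompl_le_nonZeroDivisors.trans
      (nonZeroDivisors_le_comap_nonZeroDivisors_of_injective _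
        (FaithfulSMul.algebraMap_injective _ _))
  have : IsDomain Sₚ := IsLocalization.isDomain_of_le_nonZeroDivisors _ e0
  have hinjS : Function.Injective (algebraMap A Sₚ) := IsLocalization.injective _ e0
  have hinjR : Function.Injective (algebraMap R Rₚ) :=
    IsLocalization.injective _ p.primeCompl_le_nonZeroDivisors
  have hinjRS : Function.Injective (algebraMap Rₚ Sₚ) :=
    localizationAlgebra_injective (R := R) (S := A) (Rₘ := Rₚ) (Sₘ := Sₚ) (M := p.primeCompl)
      (FaithfulSMul.algebraMap_injective R A)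
  have htf : Module.IsTorsionFree Rₚ Sₚ := by
    rw [Module.isTorsionFree_iff_algebraMap_injective]
    exact hinjRS
  have : Module.Finite Rₚ Sₚ := .of_isLocalization R A p.primeCompl
  have : IsIntegrallyClosed Sₚ := isIntegrallyClosed_of_isLocalization _ _ e0
  have hNoeR : IsNoetherianRing Rₚ := IsLocalization.isNoetherianRing p.primeCompl _ inferInstance
  have hmax : maximalIdeal Rₚ = Ideal.span {algebraMap R Rₚ F} := by
    rw [← Localization.AtPrime.map_eq_maximalIdeal]
    change Ideal.map (algebraMap R Rₚ) (Ideal.span {F}) = _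
    rw [Ideal.map_span, Set.image_singleton]
  have hprin : (maximalIdeal Rₚ).IsPrincipal := ⟨⟨algebraMap R Rₚ F, hmax⟩⟩
  have hPID : IsPrincipalIdealRing Rₚ :=
    ((tfae_of_isNoetherianRing_of_isLocalRing_of_isDomain Rₚ).out 4 0).mp hprin
  have hfree : Module.Free Rₚ Sₚ := Module.free_of_finite_type_torsion_free'
  have hNoeS : IsNoetherianRing Sₚ := by
    have h1 : IsNoetherian Rₚ Sₚ := isNoetherian_of_isNoetherianRing_of_finite _ _
    exact isNoetherian_of_tower Rₚ h1
  have hint : Algebra.IsIntegral Rₚ Sₚ := inferInstance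
  have hdim : Ring.DimensionLEOne Sₚ := Ring.DimensionLEOne.of_isIntegral Rₚ Sₚ
  have hDed : IsDedekindDomain Sₚ := { }
  have hPIDS : IsPrincipalIdealRing Sₚ := by
    refine IsPrincipalIdealRing.of_finite_maximals
      ((primesOver_finite (A := Sₚ) (algebraMap R Rₚ F)).subset ?_)
    intro 𝔪 h𝔪
    have h𝔪' : 𝔪.IsMaximal := h𝔪
    refine ⟨h𝔪'.isPrime, ?_⟩
    have h1 : (𝔪.comap (algebraMap Rₚ Sₚ)).IsMaximal :=
      Ideal.isMaximal_comap_of_isIntegral_of_isMaximal 𝔪
    rw [← hmax]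
    exact IsLocalRing.eq_maximalIdeal h1
  -- the rank
  have hfin : Module.finrank Rₚ Sₚ = N := by
    have h1 : Module.finrank Rₚ Sₚ = Module.finrank R Sₚ :=
      IsLocalization.finrank_eq Rₚ p.primeCompl p.primeCompl_le_nonZeroDivisors
    have h2 : IsLocalizedModule p.primeCompl (IsScalarTower.toAlgHom R A Sₚ).toLinearMap :=
      isLocalizedModule_iff_isLocalization.mpr inferInstance
    have h3 : Module.finrank R Sₚ = Module.finrank R A :=
      IsLocalizedModule.finrank_eq p.primeCompl (IsScalarTower.toAlgHom R A Sₚ).toLinearMap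
        p.primeCompl_le_nonZeroDivisors
    rw [h1, h3, hN]
  have hunitR : ∀ g : R, ¬ F ∣ g → IsUnit (algebraMap R Rₚ g) := fun g hg =>
    IsLocalization.map_units Rₚ (⟨g, (hmemp g).mpr hg⟩ : p.primeCompl)
  have htower : ∀ r : R, algebraMap A Sₚ (algebraMap R A r) =
      algebraMap Rₚ Sₚ (algebraMap R Rₚ r) := fun r => by
    rw [← IsScalarTower.algebraMap_apply R A Sₚ, ← IsScalarTower.algebraMap_apply R Rₚ Sₚ]
  have hsurjS : ∀ d : Sₚ, ∃ a : A, ∃ g : R, ¬ F ∣ g ∧
      algebraMap Rₚ Sₚ (algebraMap R Rₚ g) * d = algebraMap A Sₚ a := by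
    intro d
    obtain ⟨⟨a, ⟨t, ht⟩⟩, h⟩ := IsLocalization.surj
      (Algebra.algebraMapSubmonoid A p.primeCompl) d
    obtain ⟨g, hg, rfl⟩ := ht
    refine ⟨a, g, (hmemp g).mp hg, ?_⟩
    rw [← htower, mul_comm]
    exact h
  set F' : Sₚ := algebraMap A Sₚ (algebraMap R A F) with hF'
  have hF'0 : F' ≠ 0 := by
    rw [hF', Ne, map_eq_zero_iff _ hinjS, map_eq_zero_iff _ (FaithfulSMul.algebraMap_injective R A)]
    exact hF.ne_zero
  obtain ⟨J, hJ⟩ : ∃ J : Ideal Sₚ, ∀ x, x ∈ J ↔
      ∀ y ∈ Y, algebraMap A Sₚ y * x ∈ (Ideal.span {F'}).radical :=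
    ⟨{ carrier := {x | ∀ y ∈ Y, algebraMap A Sₚ y * x ∈ (Ideal.span {F'}).radical}
       add_mem' := by
        intro x x' h h' y hy
        rw [mul_add]
        exact Ideal.add_mem _ (h y hy) (h' y hy)
       zero_mem' := by
        intro y _
        rw [mul_zero]
        exact Ideal.zero_mem _
       smul_mem' := by
        intro c x h y hy
        rw [smul_eq_mul, mul_left_comm]
        exact Ideal.mul_mem_left _ _ (h y hy) }, fun _ => Iff.rfl⟩
  have hFJ : F' ∈ J := (hJ F').mpr fun y _ =>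
    Ideal.mul_mem_left _ _ (Ideal.le_radical (Ideal.mem_span_singleton_self _))
  obtain ⟨z₀, hz₀⟩ := (IsPrincipalIdealRing.principal J).principal
  have hz₀' : ∀ x, x ∈ J ↔ z₀ ∣ x := fun x => by
    rw [hz₀]; exact Ideal.mem_span_singleton
  have hz₀F : z₀ ∣ F' := (hz₀' F').mp hFJ
  have hz₀0 : z₀ ≠ 0 := fun h => hF'0 (by rw [h] at hz₀F; exact zero_dvd_iff.mp hz₀F)
  obtain ⟨z, gz, hgz, hzz⟩ := hsurjS z₀
  set z' : Sₚ := algebraMap A Sₚ z with hz'
  have hass : Associated z₀ z' := by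
    obtain ⟨u, hu⟩ := (hunitR gz hgz).map (algebraMap Rₚ Sₚ)
    exact ⟨u, by rw [hu, mul_comm]; exact hzz⟩
  have hJz : ∀ x, x ∈ J ↔ z' ∣ x := fun x => by rw [hz₀' x]; exact hass.dvd_iff_dvd_left
  have hz'0 : z' ≠ 0 := fun h => hz₀0 ((Associated.eq_zero_iff hass).mpr h)
  have hz'F : z' ∣ algebraMap Rₚ Sₚ (algebraMap R Rₚ F) := by
    rw [← htower]; exact (hJz F').mp hFJ
  -- the power of `z`
  have hpow : ∀ y ∈ Y, ∃ (E : ℕ) (b : A) (g : R), ¬ F ∣ g ∧
      algebraMap R A g * (y * z) ^ E = algebraMap R A F * b := by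
    intro y hy
    obtain ⟨E, hE⟩ := (hJ z').mp ((hJz z').mpr dvd_rfl) y hy
    obtain ⟨c, hc⟩ := Ideal.mem_span_singleton.mp hE
    obtain ⟨b, g, hg, hgc⟩ := hsurjS c
    refine ⟨E, b, g, hg, hinjS ?_⟩
    rw [map_mul, map_pow, map_mul, map_mul, ← hgc, htower g]
    change _ * (algebraMap A Sₚ y * z') ^ E = F' * _
    rw [hc]; ring
  obtain ⟨E, b, gb, hgb, hEb⟩ : ∃ (E : ℕ) (b : A → A) (g : R), ¬ F ∣ g ∧
      ∀ y ∈ Y, algebraMap R A g * (y * z) ^ E = algebraMap R A F * b y := by
    choose! Ey bY gy hgy hEy using hpow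
    refine ⟨∑ y ∈ Y, Ey y, fun y => algebraMap R A (∏ y' ∈ Y.erase y, gy y') * bY y *
      (y * z) ^ (∑ y' ∈ Y.erase y, Ey y'), ∏ y ∈ Y, gy y, ?_, ?_⟩
    · intro h
      obtain ⟨y, hy, h1⟩ := (hF.dvd_finsetProd_iff _).mp h
      exact hgy y hy h1
    · intro y hy
      rw [← Finset.mul_prod_erase Y gy hy, ← Finset.add_sum_erase Y Ey hy, map_mul, pow_add]
      linear_combination (algebraMap R A (∏ y' ∈ Y.erase y, gy y') *
        (y * z) ^ (∑ y' ∈ Y.erase y, Ey y')) * hEy y hy
  -- the reduction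
  obtain ⟨g₀, hg₀, α, hα⟩ := hs
  have hred : ∀ d : Sₚ, ∃ ρ : Fin s → Rₚ, z' ∣ d - ∑ l, algebraMap Rₚ Sₚ (ρ l) *
      algebraMap A Sₚ (α l) := by
    intro d
    obtain ⟨a, g, hg, hga⟩ := hsurjS d
    obtain ⟨r, hr⟩ := hα a
    have hgg : ¬ F ∣ g₀ * g := fun h => (hF.dvd_or_dvd h).elim hg₀ hg
    have hu := hunitR _ hgg
    obtain ⟨v, hv⟩ := hu.exists_right_inv
    refine ⟨fun l => v * algebraMap R Rₚ (r l), ?_⟩
    have h1 : z' ∣ algebraMap A Sₚ (algebraMap R A g₀ * a - ∑ l, algebraMap R A (r l) * α l) := by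
      rw [← hJz, hJ]
      intro y hy
      have h2 := Ideal.mem_map_of_mem (algebraMap A Sₚ) (hr y hy)
      have h3 := Ideal.map_radical_le (algebraMap A Sₚ)
        (I := Ideal.span {algebraMap R A F}) h2
      rw [Ideal.map_span, Set.image_singleton, map_mul] at h3
      exact h3
    have h4 : algebraMap Rₚ Sₚ (algebraMap R Rₚ (g₀ * g)) * (d - ∑ l, algebraMap Rₚ Sₚ
        (v * algebraMap R Rₚ (r l)) * algebraMap A Sₚ (α l)) =
        algebraMap A Sₚ (algebraMap R A g₀ * a - ∑ l, algebraMap R A (r l) * α l) := by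
      rw [mul_sub, map_sub, map_mul (algebraMap A Sₚ), ← hga, htower, Finset.mul_sum, map_sum]
      congr 1
      · rw [map_mul (algebraMap R Rₚ) g₀ g, map_mul (algebraMap Rₚ Sₚ)]
        ring
      · refine Finset.sum_congr rfl fun l _ => ?_
        rw [map_mul (algebraMap A Sₚ), htower, ← mul_assoc, ← map_mul, ← mul_assoc, hv, one_mul]
    rw [← h4] at h1
    exact (((hu.map (algebraMap Rₚ Sₚ)).dvd_mul_left).mp h1)
  have hnorm := norm_dvd_pow (algebraMap R Rₚ F) z' hz'0 hz'F s (fun l => algebraMap A Sₚ (α l)) hred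
  -- a basis
  set B₀ := (Module.finBasis Rₚ Sₚ).reindex (finCongr hfin) with hB₀
  choose ω gω hgω hω using fun i => hsurjS (B₀ i)
  set B := B₀.isUnitSMul (fun i => hunitR (gω i) (hgω i)) with hB
  have hBω : ∀ i, B i = algebraMap A Sₚ (ω i) := by
    intro i
    rw [hB, Module.Basis.isUnitSMul_apply, Algebra.smul_def]
    exact hω i
  have hexp : ∀ a : A, ∃ g : R, ¬ F ∣ g ∧ ∃ r : Fin N → R,
      algebraMap R A g * a = ∑ i, algebraMap R A (r i) * ω i := by
    intro a
    obtain ⟨⟨g, hg⟩, hgi⟩ := IsLocalization.exist_integer_multiples_of_finite p.primeCompl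
      (fun i => B.repr (algebraMap A Sₚ a) i)
    choose r hr using hgi
    refine ⟨g, (hmemp g).mp hg, r, hinjS ?_⟩
    rw [map_mul, map_sum, htower]
    have h1 := B.sum_repr (algebraMap A Sₚ a)
    calc algebraMap Rₚ Sₚ (algebraMap R Rₚ g) * algebraMap A Sₚ a
        = algebraMap Rₚ Sₚ (algebraMap R Rₚ g) *
          ∑ i, B.repr (algebraMap A Sₚ a) i • B i := by rw [h1]
      _ = _ := by
        rw [Finset.mul_sum]
        refine Finset.sum_congr rfl fun i _ => ?_
        have h2 : algebraMap R Rₚ (r i) = algebraMap R Rₚ g * B.repr (algebraMap A Sₚ a) i := by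
          rw [hr i]
          exact Algebra.smul_def _ _
        rw [map_mul, htower, h2, hBω i, Algebra.smul_def, ← mul_assoc, ← map_mul]
  obtain ⟨G, hG, hGall⟩ : ∃ G : R, ¬ F ∣ G ∧ ∀ a : A, ∃ r : Fin N → R,
      algebraMap R A G * a = ∑ i, algebraMap R A (r i) * ω i := by
    obtain ⟨T, hT⟩ := (Module.Finite.fg_top : (⊤ : Submodule R A).FG)
    choose gt hgt rt hrt using hexp
    refine ⟨∏ τ ∈ T, gt τ, ?_, ?_⟩
    · intro h
      obtain ⟨τ, -, hτ⟩ := (hF.dvd_finsetProd_iff _).mp h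
      exact hgt τ hτ
    · intro a
      have ha : a ∈ Submodule.span R (T : Set A) := by rw [hT]; trivial
      refine Submodule.span_induction ?_ ?_ ?_ ?_ ha
      · intro τ hτ
        refine ⟨fun i => (∏ τ' ∈ T.erase τ, gt τ') * rt τ i, ?_⟩
        rw [← Finset.mul_prod_erase T gt hτ, map_mul, mul_assoc, mul_comm (algebraMap R A
          (∏ τ' ∈ T.erase τ, gt τ')) τ, ← mul_assoc, hrt τ, Finset.sum_mul]
        refine Finset.sum_congr rfl fun i _ => ?_
        rw [map_mul]; ring
      · exact ⟨0, by simp⟩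
      · rintro x y - - ⟨r, hr⟩ ⟨r', hr'⟩
        refine ⟨r + r', ?_⟩
        rw [mul_add, hr, hr', ← Finset.sum_add_distrib]
        refine Finset.sum_congr rfl fun i _ => ?_
        rw [Pi.add_apply, map_add]; ring
      · rintro c x - ⟨r, hr⟩
        refine ⟨fun i => c * r i, ?_⟩
        rw [Algebra.smul_def, mul_left_comm, hr, Finset.mul_sum]
        refine Finset.sum_congr rfl fun i _ => ?_
        rw [map_mul]; ring
  -- the final common multiple
  set g := G * gb with hg
  have hgF : ¬ F ∣ g := fun h => (hF.dvd_or_dvd h).elim hG hgb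
  have hgall : ∀ a : A, ∃ r : Fin N → R,
      algebraMap R A g * a = ∑ i, algebraMap R A (r i) * ω i := by
    intro a
    obtain ⟨r, hr⟩ := hGall (algebraMap R A gb * a)
    exact ⟨r, by rw [hg, map_mul, mul_assoc, hr]⟩
  choose M hM using fun i => hgall (z * ω i)
  refine ⟨ω, z, g, Matrix.of M, E, fun y => algebraMap R A G * b y, hgF, ?_, ?_, hgall, ?_⟩
  · intro i
    rw [mul_assoc, hM i]
    rfl
  · intro hdvd
    have h1 : algebraMap R Rₚ (Matrix.of M).det =
        Algebra.norm Rₚ (algebraMap Rₚ Sₚ (algebraMap R Rₚ g) * z') := by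
      rw [Algebra.norm_eq_matrix_det B, RingHom.map_det, ← Matrix.det_transpose]
      congr 1
      ext i j
      rw [Matrix.transpose_apply, RingHom.mapMatrix_apply, Matrix.map_apply, Matrix.of_apply,
        Algebra.leftMulMatrix_eq_repr_mul, hBω j]
      have h2 : algebraMap Rₚ Sₚ (algebraMap R Rₚ g) * z' * algebraMap A Sₚ (ω j) =
          ∑ l, algebraMap R Rₚ (M j l) • B l := by
        have h3 := congrArg (algebraMap A Sₚ) (hM j)
        rw [map_mul (algebraMap A Sₚ), map_mul (algebraMap A Sₚ), map_sum, htower,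
          ← mul_assoc] at h3
        rw [h3]
        refine Finset.sum_congr rfl fun l _ => ?_
        rw [map_mul, htower, hBω l, Algebra.smul_def]
      rw [h2, map_sum, Finsupp.finsetSum_apply, Finset.sum_eq_single i]
      · rw [map_smul, Module.Basis.repr_self, Finsupp.smul_apply, Finsupp.single_eq_same,
          smul_eq_mul, mul_one]
      · intro l _ hl
        rw [map_smul, Module.Basis.repr_self, Finsupp.smul_apply,
          Finsupp.single_eq_of_ne hl.symm, smul_zero]
      · intro h; exact absurd (Finset.mem_univ _) h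
    have h4 := map_dvd (algebraMap R Rₚ) hdvd
    rw [h1, map_mul, Algebra.norm_algebraMap, map_pow] at h4
    have h5 : algebraMap R Rₚ F ^ (s + 1) ∣ Algebra.norm Rₚ z' :=
      (((hunitR g hgF).pow _).dvd_mul_left).mp h4
    have h6 := h5.trans hnorm
    have hF0 : algebraMap R Rₚ F ≠ 0 := by
      rw [Ne, map_eq_zero_iff _ hinjR]; exact hF.ne_zero
    have hFnu : ¬ IsUnit (algebraMap R Rₚ F) := by
      rw [← mem_nonunits_iff, ← mem_maximalIdeal, hmax]
      exact Ideal.mem_span_singleton_self _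
    have h7 : s + 1 ≤ s := (pow_dvd_pow_iff hF0 hFnu).mp h6
    omega
  · intro y hy
    rw [hg, map_mul, mul_assoc, hEb y hy]; ring

theorem loc : Pool.Agent.N753.AC.StmLOC := by
  intro R A _ _ _ _ _ _ _ _ _ F Y s N hF hN hs
  exact local_data F Y hF s N hN hs

end Pool.Agent.N61.AC
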